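import Mathlib
import Pool.Agent.MP_f27d50_gt.NV

set_option autoImplicit false

open MeasureTheory

namespace Pool.Agent.Results.MP_f27d50_gt.NullVariety

/-- The Fourier transform of the covariogram `x ↦ vol (K ∩ (K + x))` at a real frequency `ξ`. -/
noncomputable def covFT (K : Set (EuclideanSpace ℝ (Fin 3))) (ξ : EuclideanSpace ℝ (Fin 3)) : ℂ :=
  ∫ x : EuclideanSpace ℝ (Fin 3), ((volume (K ∩ ((fun y => y + x) '' K))).toReal : ℂ) *
    Complex.exp (Complex.I * (inner ℝ ξ x : ℝ))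

theorem result :
    ∀ K L : Set (EuclideanSpace ℝ (Fin 3)),
      IsCompact K → Convex ℝ K → (interior K).Nonempty →
      IsCompact L → Convex ℝ L → (interior L).Nonempty →
      (∃ a, K = (fun y => a - y) '' K) →
      (∃ R : ℝ, ∀ ξ, R ≤ ‖ξ‖ → covFT K ξ = 0 → covFT L ξ = 0) →
      (∃ b, L = (fun y => b - y) '' L) ∧
        ∃ t, (fun y => y + t) '' K ⊆ L ∧
          ((∃ R : ℝ, ∀ ξ, R ≤ ‖ξ‖ → covFT L ξ = 0 → covFT K ξ = 0) →
            L = (fun y => y + t) '' K) := by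
  intro K L k₁ k₂ k₃ l₁ l₂ l₃ hs h
  simp only [covFT, Pool.Agent.MP_f27d50_gt.NV.cov_zero k₁,
    Pool.Agent.MP_f27d50_gt.NV.cov_zero l₁] at h ⊢
  exact Pool.Agent.MP_f27d50_gt.NV.null_main K L k₁ k₂ k₃ l₁ l₂ l₃ hs h

end Pool.Agent.Results.MP_f27d50_gt.NullVariety
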